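import Pool.Agent.H77.RZ.All

/-!
# MP_81dc49: a positive proportion of all elliptic curves over `F_q(t)`, `q` odd, has rank zero

`K = F(t)`, `F` any finite field of odd order, and `E_f : y² = x³ + a x² + b x + c` for
`f = (a, b, c)`.  `Ell F n` is the set of all `f ∈ F[t]³` with `deg a ≤ 2n`, `deg b ≤ 4n`,
`deg c ≤ 6n` for which `E_f` is nonsingular; `Sht F n` is the subset `a = 0`, and `MinE F n` the
subset of `Sht F n` of the equations which are minimal at all primes of `F[t]`.  In each of the
three families (in the last two if the characteristic is not 3) the proportion of the curves with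
`E_f(K)` finite is bounded below by a positive constant for large `n`.

The proof uses neither 3-Selmer groups nor root numbers.  In a subfamily of positive proportion the
average number of nontrivial 2-Selmer classes which are locally trivial at `t = 0` and `t = 1` is at
most `1/2`, and a reciprocity law for ternary quadratic forms shows that, if there is no such class,
then one of the twists of `E_f` by `1`, `t`, `t - 1`, `t (t - 1)` has rank zero.
-/

open Polynomial Pool.AVR Pool.AVS Pool.RZ

namespace Pool.Agent.H75.Old.RankZero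

open Classical in
theorem result (F : Type) [Field F] [Finite F] (h2 : (2 : F) ≠ 0) :
    (∃ δ : ℝ, 0 < δ ∧ ∃ N : ℕ, ∀ n : ℕ, N ≤ n → (Ell F n).Finite ∧ 0 < (Ell F n).ncard ∧
      δ * (Ell F n).ncard ≤ {f ∈ Ell F n | Finite (EK f)}.ncard) ∧
    ((3 : F) ≠ 0 →
      (∃ δ : ℝ, 0 < δ ∧ ∃ N : ℕ, ∀ n : ℕ, N ≤ n → (Sht F n).Finite ∧ 0 < (Sht F n).ncard ∧
        δ * (Sht F n).ncard ≤ {f ∈ Sht F n | Finite (EK f)}.ncard) ∧
      ∃ δ : ℝ, 0 < δ ∧ ∃ N : ℕ, ∀ n : ℕ, N ≤ n → (MinE F n).Finite ∧ 0 < (MinE F n).ncard ∧
        δ * (MinE F n).ncard ≤ {f ∈ MinE F n | Finite (EK f)}.ncard) :=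
  mainRZ F h2

end Pool.Agent.H75.Old.RankZero
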